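import Pool.Agent.Helper28.TH.StV

/-!
# Project TH, low levels, module LW4: Hecke words modulo `p^M`

For every family `Ψ` the central component of `WT a l (p^M) Ψ` is modulo `p^M` equal to `l^a` times
`Tl l (p^M)` of the central component of `Ψ`; induction on the word, and `l` is a unit modulo `p^M`.
-/

set_option autoImplicit false

namespace Pool.Agent.Helper75.THV

open Pool.Agent.Helper28.TH Pool.Agent.Helper28.WK Pool.Agent.Helper28.LV Pool.Agent.Helper93.TLH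
open Pool.Agent.Helper14.CV Pool.Agent.Helper4.TL

/-- polynomials with a difference divisible by `p^M` have the same values modulo `p^M` -/
private theorem red_pr {p : ℕ} [Fact p.Prime] (M : ℕ) (Φ : ℤ → ℤ → ℕ → ℤ_[p]) {P Q : Polynomial ℤ}
    (h : Polynomial.C ((p : ℤ) ^ M) ∣ P - Q) (x y : ℤ) :
    PadicInt.toZModPow M (pr Φ P x y) = PadicInt.toZModPow M (pr Φ Q x y) := by
  obtain ⟨R, hR⟩ := h
  have e : P = Q + Polynomial.C ((p : ℤ) ^ M) * R := by rw [← hR]; ring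
  have z : (((p : ℤ) ^ M : ℤ) : ZMod (p ^ M)) = 0 := by
    have := ZMod.natCast_self (p ^ M)
    push_cast at this ⊢
    exact this
  rw [e, pr_add, pr_C_mul, Pi.add_apply, Pi.add_apply, Pi.smul_apply, Pi.smul_apply, map_add, zsmul_eq_mul, map_mul,
    map_intCast, z, zero_mul, add_zero]

/-- the polynomial of the Hecke operator -/
private theorem red_pol {p : ℕ} [Fact p.Prime] (M a l : ℕ) (Φ : ℤ → ℤ → ℕ → ℤ_[p]) (j : ℕ) (x y : ℤ) :
    PadicInt.toZModPow M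
        (pr Φ ((Polynomial.C (l : ℤ) * Polynomial.X - Polynomial.C ((p : ℤ) ^ M * j)) ^ a) x y) =
      (l : ZMod (p ^ M)) ^ a * redP M (cp Φ a) x y := by
  have h : Polynomial.C ((p : ℤ) ^ M) ∣
      (Polynomial.C (l : ℤ) * Polynomial.X - Polynomial.C ((p : ℤ) ^ M * j)) ^ a -
        (Polynomial.C (l : ℤ) * Polynomial.X) ^ a := by
    refine dvd_trans ?_ (sub_dvd_pow_sub_pow _ _ a)
    refine ⟨-Polynomial.C (j : ℤ), ?_⟩
    rw [Polynomial.C_mul]
    ring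
  rw [red_pr M Φ h, mul_pow, ← Polynomial.C_pow, pr_C_mul, pr_X_pow, Pi.smul_apply, Pi.smul_apply, zsmul_eq_mul,
    map_mul, map_intCast]
  push_cast
  rfl

/-- one Hecke operator -/
private theorem red_WT {p : ℕ} [Fact p.Prime] (M a l : ℕ) (Φ : ℤ → ℤ → ℕ → ℤ_[p]) :
    redP M (cp (WT a l ((p : ℤ) ^ M) Φ) a) =
      ((l : ZMod (p ^ M)) ^ a) • Tl l ((p : ℤ) ^ M) (redP M (cp Φ a)) := by
  funext x y
  have e2 : 2 * a - a = a := by omega
  have e0 : redP M (cp (WT a l ((p : ℤ) ^ M) Φ) a) x y =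
      PadicInt.toZModPow M ((∑ j ∈ Finset.range l,
        pr Φ ((Polynomial.C (l : ℤ) * Polynomial.X - Polynomial.C ((p : ℤ) ^ M * j)) ^ a)
          (x + (p : ℤ) ^ M * j * y) (l * y)) + ((l : ℤ) ^ (2 * a - a)) • Φ (l * x) y a) := rfl
  have e1 : ∀ j ∈ Finset.range l, PadicInt.toZModPow M
      (pr Φ ((Polynomial.C (l : ℤ) * Polynomial.X - Polynomial.C ((p : ℤ) ^ M * j)) ^ a)
        (x + (p : ℤ) ^ M * j * y) (l * y)) =
      (l : ZMod (p ^ M)) ^ a * redP M (cp Φ a) (x + (p : ℤ) ^ M * j * y) (l * y) :=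
    fun j _ => red_pol M a l Φ j _ _
  rw [e0, map_add, map_sum, Finset.sum_congr rfl e1, e2, zsmul_eq_mul, map_mul, map_intCast, Pi.smul_apply,
    Pi.smul_apply, smul_eq_mul, Tl, mul_add, Finset.mul_sum, add_comm]
  push_cast
  rfl

/-- words -/
private theorem red_WTw {p : ℕ} [Fact p.Prime] (M a : ℕ) (Φ : ℤ → ℤ → ℕ → ℤ_[p]) (ls : List ℕ) (h : OkE p ls) :
    ∃ u : ZMod (p ^ M), IsUnit u ∧
      redP M (cp (WTw a ((p : ℤ) ^ M) ls Φ) a) = u • Tw ((p : ℤ) ^ M) ls (redP M (cp Φ a)) := by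
  induction ls with
  | nil => exact ⟨1, isUnit_one, by rw [one_smul]; rfl⟩
  | cons l ls ih =>
    obtain ⟨u, hu, e⟩ := ih fun k hk => h k (List.mem_cons_of_mem l hk)
    obtain ⟨h1, h2, -⟩ := h l List.mem_cons_self
    have hp : p.Prime := Fact.out
    have hc : Nat.Coprime l (p ^ M) := ((Nat.coprime_primes h1 hp).2 h2).pow_right M
    have hl : IsUnit (l : ZMod (p ^ M)) := (ZMod.isUnit_iff_coprime l (p ^ M)).2 hc
    refine ⟨(l : ZMod (p ^ M)) ^ a * u, (hl.pow a).mul hu, ?_⟩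
    have e3 : redP M (cp (WTw a ((p : ℤ) ^ M) (l :: ls) Φ) a) =
        redP M (cp (WT a l ((p : ℤ) ^ M) (WTw a ((p : ℤ) ^ M) ls Φ)) a) := rfl
    have e4 : Tw ((p : ℤ) ^ M) (l :: ls) (redP M (cp Φ a)) =
        Tl l ((p : ℤ) ^ M) (Tw ((p : ℤ) ^ M) ls (redP M (cp Φ a))) := rfl
    rw [e3, red_WT, e, Tl_smul, smul_smul, e4]

/-- LW4: Hecke words -/
theorem hLW4 : ZLW4 := by
  intro p hp a ν Φ hΦ M hM ls hls
  obtain ⟨u, hu, e⟩ := red_WTw M a Φ ls hls
  have h := hΦ.hk M hM ls hls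
  have h1 : redP M (cp (WTw a ((p : ℤ) ^ M) ls Φ) a) 1 0 = redP M (cp (WTw a ((p : ℤ) ^ M) ls Φ) a) 0 1 :=
    congrArg (PadicInt.toZModPow M) h
  rw [e, Pi.smul_apply, Pi.smul_apply, Pi.smul_apply, Pi.smul_apply, smul_eq_mul, smul_eq_mul] at h1
  have h2 := hu.mul_left_cancel h1
  unfold evw
  rw [h2, sub_self]

end Pool.Agent.Helper75.THV
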